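import Pool.Agent.helper7.PQ.Spec

/-!
# Project pq (MP_ebc808_nt), module FE: the even part
-/

set_option autoImplicit false

open Finset PowerSeries

noncomputable section

namespace Pool.Agent.PQ

open Pool.Agent.EP

theorem FE_mm (i n₀ u₀ : ℕ) (hn : 0 < n₀) (hu : u₀.Coprime 6) :
    mm (2 * i + 3) n₀ u₀ % 24 = 7 := by
  have h4 : (2 : ℕ) ^ (2 * i + 3) % 24 = 8 := by
    induction i with
    | zero => norm_num
    | succ k ih =>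
      have e1 : (2 : ℕ) ^ (2 * (k + 1) + 3) = 4 * 2 ^ (2 * k + 3) := by
        rw [show 2 * (k + 1) + 3 = (2 * k + 3) + 2 by ring, pow_add]
        ring
      rw [e1, Nat.mul_mod, ih]
  have h3 : u₀ ^ 2 % 24 = 1 := by
    have h5 : u₀ % 24 < 24 := Nat.mod_lt _ (by norm_num)
    have h6 : (u₀ % 24).Coprime 6 := by
      have h7 : Nat.gcd 6 u₀ = Nat.gcd 6 (u₀ % 24) := by
        conv_lhs => rw [← Nat.mod_add_div u₀ 24]
        rw [show 24 * (u₀ / 24) = 6 * (4 * (u₀ / 24)) by ring, Nat.gcd_add_mul_left_right]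
      unfold Nat.Coprime at hu ⊢
      rw [Nat.gcd_comm] at hu ⊢
      rw [← h7]
      exact hu
    rw [Nat.pow_mod]
    generalize u₀ % 24 = v at h5 h6 ⊢
    interval_cases v <;> first | rfl | (exfalso; revert h6; decide)
  have h7 : 2 ^ (2 * i + 3) * u₀ ^ 2 % 24 = 8 := by
    rw [Nat.mul_mod, h4, h3]
  unfold mm
  omega

theorem FE_mono (i a : ℕ) (r : ℕ → ZMod 2) : Monotone (Nr i a r) := by
  intro X Y hXY
  unfold Nr
  apply Finset.card_le_card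
  apply Finset.filter_subset_filter
  apply Finset.range_subset_range.2
  omega

theorem FE_cls (b t n₀ u₀ μ j Q P P' : ℕ) (hn : 0 < n₀)
    (hμ : 24 * t * 2 ^ b * Q ∣ μ + 1) (hP : (Q * P) % (24 * t * 2 ^ b) = 1)
    (hP' : P' % (24 * t * 2 ^ b) = mm b n₀ u₀ % (24 * t * 2 ^ b)) :
    (Q * P * (μ ^ (4 * j) * P') + 1) % 2 ^ b = (24 * n₀) % 2 ^ b := by
  have hd : 2 ^ b ∣ 24 * t * 2 ^ b := Dvd.intro_left _ rfl
  have h1 : ((μ : ℕ) : ZMod (2 ^ b)) = -1 := by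
    have h2 : ((μ + 1 : ℕ) : ZMod (2 ^ b)) = 0 :=
      (ZMod.natCast_eq_zero_iff _ _).2 ((hd.mul_right Q).trans hμ)
    push_cast at h2
    exact eq_neg_of_add_eq_zero_left h2
  have h2 : ((Q * P : ℕ) : ZMod (2 ^ b)) = ((1 : ℕ) : ZMod (2 ^ b)) := by
    rw [ZMod.natCast_eq_natCast_iff']
    have h3 := Nat.mod_mod_of_dvd (Q * P) hd
    rw [← h3, hP]
  have h3 : ((P' : ℕ) : ZMod (2 ^ b)) = ((mm b n₀ u₀ : ℕ) : ZMod (2 ^ b)) := by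
    rw [ZMod.natCast_eq_natCast_iff']
    have h4 := Nat.mod_mod_of_dvd P' hd
    have h5 := Nat.mod_mod_of_dvd (mm b n₀ u₀) hd
    rw [← h4, hP', h5]
  have h4 : ((mm b n₀ u₀ + 1 : ℕ) : ZMod (2 ^ b)) = ((24 * n₀ : ℕ) : ZMod (2 ^ b)) := by
    have h5 : mm b n₀ u₀ + 1 = 24 * n₀ + 2 ^ b * u₀ ^ 2 := by
      unfold mm
      omega
    rw [h5, Nat.cast_add, Nat.cast_mul (2 ^ b), ZMod.natCast_self, zero_mul, add_zero]
  rw [← ZMod.natCast_eq_natCast_iff', ← h4]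
  push_cast at h2 h3 ⊢
  rw [h2, h1, h3, pow_mul]
  norm_num

theorem FE_le (B Q₁ Q₂ P P' n y D : ℕ) (hP : P ≤ 2 * y) (hP' : P' ≤ 2 * y) (hD : Q₁ * Q₂ ≤ D)
    (h : RelP B Q₁ Q₂ P P' n) : n ≤ D * y ^ 2 := by
  have h0 : Q₁ * P * (Q₂ * P') ≤ 4 * (D * y ^ 2) := by
    calc Q₁ * P * (Q₂ * P') ≤ Q₁ * (2 * y) * (Q₂ * (2 * y)) := by gcongr
      _ = (Q₁ * Q₂) * (4 * y ^ 2) := by ring
      _ ≤ D * (4 * y ^ 2) := Nat.mul_le_mul_right _ hD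
      _ = 4 * (D * y ^ 2) := by ring
  obtain ⟨u, ⟨-, h1⟩ | ⟨-, h1⟩⟩ := h
  · have h2 : Q₁ * P * (Q₂ * P' - B * u ^ 2) ≤ Q₁ * P * (Q₂ * P') :=
      Nat.mul_le_mul_left _ (Nat.sub_le _ _)
    omega
  · have h2 : (Q₁ * P - B * u ^ 2) * (Q₂ * P') ≤ Q₁ * P * (Q₂ * P') :=
      Nat.mul_le_mul_right _ (Nat.sub_le _ _)
    omega

theorem FE (hEVE : EVE_stmt) (hC2 : C2_stmt) (hEPJ : EPJ_stmt) (hCRE : CRE_stmt)
    (hCLR : CLR_stmt) (hCNL : CNL_stmt) (hXFR : XFR_stmt) : FE_stmt := by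
  classical
  intro i a t r ht hr hex
  obtain ⟨n₀, u₀, μ, s, hE, hn₀⟩ := hCRE i a t r ht hr hex
  obtain ⟨b, hb⟩ : ∃ b, b = 2 * i + 3 := ⟨_, rfl⟩
  obtain ⟨hb2, hb3, -, -, hnp, -, hu6, -, hs, -, hμp, hμd⟩ := id hE
  have hm7 : mm (2 * i + 3) n₀ u₀ % 24 = 7 := FE_mm i n₀ u₀ hnp hu6
  rw [← hb] at hE hb2 hb3 hm7 hs hμd
  obtain ⟨e, he⟩ := hC2 b t (mm b n₀ u₀) r hb2 hb3 ht hr hm7
  obtain ⟨K, c, y₀, hc, hK⟩ := hEPJ b t n₀ u₀ μ r s e hE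
  have hQ : 0 < ∏ q ∈ s, q := Finset.prod_pos fun q hq => (hs q hq).1.pos
  have hμ0 : ∀ j, 0 < μ ^ (4 * j) := fun j => pow_pos hμp.pos _
  have hcn := fun j => hCNL (2 ^ b) (∏ q ∈ s, q) (μ ^ (4 * j)) c (by positivity) hQ (hμ0 j) hc
  choose c₁ y₁ hc₁ h₁ using hcn
  obtain ⟨j₀, -, hj₀⟩ := Finset.exists_min_image (range (K + 1)) c₁ ⟨0, by simp⟩
  refine hXFR (Nr i a r) ((∏ q ∈ s, q) * μ ^ (4 * K)) (y₀ + ∑ j ∈ range (K + 1), y₁ j) (c₁ j₀)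
    (FE_mono i a r) (Nat.mul_pos hQ (hμ0 K)) (hc₁ j₀) ?_
  intro y hy
  obtain ⟨j, hj, hcount⟩ := hK y (by omega)
  have hjm : j ∈ range (K + 1) := Finset.mem_range.2 (by omega)
  have hyj : y₁ j ≤ y := by
    have h2 : y₁ j ≤ ∑ j ∈ range (K + 1), y₁ j :=
      Finset.single_le_sum (f := y₁) (fun _ _ => Nat.zero_le _) hjm
    omega
  have hfin := h₁ j y hyj _ {n ∈ range ((∏ q ∈ s, q) * μ ^ (4 * K) * y ^ 2 + 1) |
    n % 2 ^ i = a % 2 ^ i ∧ pp n ≠ r n} (Finset.filter_subset _ _) (by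
      intro x hx
      have h3 := (Finset.mem_filter.1 hx).2
      exact ⟨h3.1.1, h3.2.1.1⟩) (by
      intro x hx hexc
      obtain ⟨hx1, hPC, hPD, hne⟩ := Finset.mem_filter.1 hx
      rw [Finset.mem_product, Finset.mem_Ioc, Finset.mem_Ioc] at hx1
      obtain ⟨n, hrel, hpp⟩ := hEVE b t n₀ u₀ μ r s e x.1 x.2 j hE hPC hPD he hexc hne
      refine ⟨n, ?_, hrel⟩
      rw [Finset.mem_filter, Finset.mem_range]
      have hle : n ≤ (∏ q ∈ s, q) * μ ^ (4 * K) * y ^ 2 := by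
        refine FE_le (2 ^ b) (∏ q ∈ s, q) (μ ^ (4 * j)) x.1 x.2 n y _ hx1.1.2 hx1.2.2 ?_ hrel
        exact Nat.mul_le_mul_left _ (Nat.pow_le_pow_right hμp.pos (by omega))
      refine ⟨by omega, ?_, hpp⟩
      rw [← hn₀]
      refine hCLR b i (∏ q ∈ s, q) (μ ^ (4 * j)) x.1 x.2 n n₀ (by omega) hrel ?_
      exact FE_cls b t n₀ u₀ μ j (∏ q ∈ s, q) x.1 x.2 hnp hμd hPC.2.1 hPD.2.1) hcount
  refine le_trans ?_ hfin
  have h5 : (0 : ℝ) ≤ (y : ℝ) ^ (3 / 2 : ℝ) / Real.log y ^ 2 := by positivity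
  rw [mul_div_assoc, mul_div_assoc]
  exact mul_le_mul_of_nonneg_right (hj₀ j hjm) h5

end Pool.Agent.PQ
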